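import Pool.Agent.H91.CF.TA
import Pool.Agent.H22.CN.CRR

set_option autoImplicit false

open MeasureTheory Set Filter
open Pool.Agent.H31.CN Pool.Agent.H91.CF
open Pool.Agent.H96.CN (Av Per2)
open scoped Real Topology

namespace Pool.Agent.H30.CF

open Classical in
/-- the numbers `D ≤ Y` in a class modulo `q` without square factors `p²`, `p ∈ S` -/
noncomputable def cns (q a : ℕ) (S : Finset ℕ) (Y : ℝ) : Finset ℕ :=
  (Finset.Icc 1 ⌊Y⌋₊).filter (fun D => D % q = a % q ∧ ∀ p ∈ S, ¬ p ^ 2 ∣ D)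

lemma cns_base (q a : ℕ) (hq : 1 ≤ q) (Y : ℝ) (hY : 0 ≤ Y) :
    |((cns q a ∅ Y).card : ℝ) - Y / q| ≤ 2 := by
  have hq0 : (0 : ℝ) < q := by exact_mod_cast hq
  have h1 : cns q a ∅ Y = (Finset.Ioc 0 ⌊Y⌋₊).filter (· ≡ a [MOD q]) := by
    unfold cns
    ext D
    simp only [Finset.mem_filter, Finset.mem_Icc, Finset.notMem_empty, false_imp_iff,
      implies_true, and_true, Finset.mem_Ioc, Nat.ModEq]
    constructor
    · rintro ⟨⟨h, h'⟩, h2⟩; exact ⟨⟨by omega, h'⟩, h2⟩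
    · rintro ⟨⟨h, h'⟩, h2⟩; exact ⟨⟨by omega, h'⟩, h2⟩
  have h2 := Nat.Ioc_filter_modEq_card 0 ⌊Y⌋₊ (r := q) (by omega) a
  rw [h1]
  set c := ((Finset.Ioc 0 ⌊Y⌋₊).filter (· ≡ a [MOD q])).card with hc
  set u := ⌊((⌊Y⌋₊ : ℕ) - (a : ℕ) : ℚ) / (q : ℚ)⌋ with hu
  set v := ⌊(((0 : ℕ) : ℚ) - (a : ℕ)) / (q : ℚ)⌋ with hv
  have h3 : (c : ℤ) = max (u - v) 0 := h2
  have hu1 : (u : ℚ) ≤ ((⌊Y⌋₊ : ℕ) - (a : ℕ) : ℚ) / (q : ℚ) := Int.floor_le _
  have hu2 : ((⌊Y⌋₊ : ℕ) - (a : ℕ) : ℚ) / (q : ℚ) < u + 1 := Int.lt_floor_add_one _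
  have hv1 : (v : ℚ) ≤ (((0 : ℕ) : ℚ) - (a : ℕ)) / (q : ℚ) := Int.floor_le _
  have hv2 : (((0 : ℕ) : ℚ) - (a : ℕ)) / (q : ℚ) < v + 1 := Int.lt_floor_add_one _
  have hq0' : (0 : ℚ) < q := by exact_mod_cast hq
  have e1 : ((⌊Y⌋₊ : ℕ) - (a : ℕ) : ℚ) / (q : ℚ) - (((0 : ℕ) : ℚ) - (a : ℕ)) / (q : ℚ) =
      (⌊Y⌋₊ : ℕ) / (q : ℚ) := by
    field_simp
    push_cast
    ring
  have e2 : ((u - v : ℤ) : ℚ) < (⌊Y⌋₊ : ℕ) / (q : ℚ) + 1 := by push_cast; linarith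
  have e3 : (⌊Y⌋₊ : ℕ) / (q : ℚ) - 1 < ((u - v : ℤ) : ℚ) := by push_cast; linarith
  have e0 : (0 : ℚ) ≤ (⌊Y⌋₊ : ℕ) / (q : ℚ) := by positivity
  have e4 : (c : ℚ) < (⌊Y⌋₊ : ℕ) / (q : ℚ) + 1 := by
    have : ((c : ℤ) : ℚ) = ((max (u - v) 0 : ℤ) : ℚ) := by rw [h3]
    rw [Int.cast_natCast] at this
    rw [this]
    push_cast
    rw [max_lt_iff]
    push_cast at e2
    constructor
    · linarith
    · linarith
  have e5 : (⌊Y⌋₊ : ℕ) / (q : ℚ) - 1 < (c : ℚ) := by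
    have : ((c : ℤ) : ℚ) = ((max (u - v) 0 : ℤ) : ℚ) := by rw [h3]
    rw [Int.cast_natCast] at this
    rw [this]
    push_cast
    push_cast at e3
    exact lt_of_lt_of_le e3 (le_max_left _ _)
  have e6 : (c : ℝ) < (⌊Y⌋₊ : ℕ) / (q : ℝ) + 1 := by
    have := (Rat.cast_lt (K := ℝ)).mpr e4
    push_cast at this
    exact this
  have e7 : (⌊Y⌋₊ : ℕ) / (q : ℝ) - 1 < (c : ℝ) := by
    have := (Rat.cast_lt (K := ℝ)).mpr e5
    push_cast at this
    exact this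
  have f1 : ((⌊Y⌋₊ : ℕ) : ℝ) ≤ Y := Nat.floor_le hY
  have f2 : Y < (⌊Y⌋₊ : ℕ) + 1 := Nat.lt_floor_add_one Y
  have f3 : ((⌊Y⌋₊ : ℕ) : ℝ) / q ≤ Y / q := by gcongr
  have f4 : Y / q < (⌊Y⌋₊ : ℕ) / (q : ℝ) + 1 := by
    have hq1 : (1 : ℝ) ≤ q := by exact_mod_cast hq
    rw [div_lt_iff₀ hq0, add_mul, div_mul_cancel₀ _ hq0.ne']
    linarith
  rw [abs_le]
  constructor <;> linarith

lemma cns_step (q : ℕ) (S : Finset ℕ) (hS : ∀ p ∈ S, p.Prime) (p : ℕ) (hp : p.Prime)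
    (hpS : p ∉ S) (hpq : ¬ p ∣ q) (a : ℕ) (Y : ℝ) :
    ∃ a' : ℕ, ((cns q a (insert p S) Y).card : ℝ) =
      (cns q a S Y).card - (cns q a' S (Y / (p : ℝ) ^ 2)).card := by
  classical
  have hco : Nat.Coprime q (p ^ 2) :=
    Nat.Coprime.symm (Nat.Coprime.pow_left 2 ((Nat.Prime.coprime_iff_not_dvd hp).2 hpq))
  obtain ⟨k, hk1, hk2⟩ := Nat.chineseRemainder hco a 0
  obtain ⟨a', ha'⟩ := (Nat.modEq_zero_iff_dvd.mp hk2)
  refine ⟨a', ?_⟩
  have hp2 : 0 < p ^ 2 := pow_pos hp.pos 2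
  have hsub : (cns q a S Y).filter (fun D => ¬ p ^ 2 ∣ D) = cns q a (insert p S) Y := by
    unfold cns
    ext D
    simp only [Finset.mem_filter, Finset.mem_insert, forall_eq_or_imp]
    tauto
  have hdv : (cns q a S Y).filter (fun D => p ^ 2 ∣ D) =
      (cns q a' S (Y / (p : ℝ) ^ 2)).image (fun D => p ^ 2 * D) := by
    unfold cns
    ext D
    simp only [Finset.mem_filter, Finset.mem_Icc, Finset.mem_image]
    have hfl : ⌊Y / (p : ℝ) ^ 2⌋₊ = ⌊Y⌋₊ / p ^ 2 := by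
      have := Nat.floor_div_natCast Y (p ^ 2)
      rw [← this]
      push_cast
      rfl
    have hcong : ∀ E : ℕ, (p ^ 2 * E) % q = a % q ↔ E % q = a' % q := by
      intro E
      have h1 : (p ^ 2 * E) % q = a % q ↔ (p ^ 2 * E) ≡ p ^ 2 * a' [MOD q] := by
        rw [← ha']
        constructor
        · intro h; exact (show _ ≡ _ [MOD q] from h).trans hk1.symm
        · intro h; exact h.trans hk1
      rw [h1]
      constructor
      · intro h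
        exact Nat.ModEq.cancel_left_of_coprime hco h
      · intro h
        exact Nat.ModEq.mul_left _ h
    have hsq : ∀ E : ℕ, ∀ r ∈ S, (r ^ 2 ∣ p ^ 2 * E ↔ r ^ 2 ∣ E) := by
      intro E r hr
      have hne : r ≠ p := fun h => hpS (h ▸ hr)
      have hc : Nat.Coprime (r ^ 2) (p ^ 2) :=
        Nat.Coprime.pow 2 2 ((Nat.coprime_primes (hS r hr) hp).2 hne)
      exact ⟨fun h => hc.dvd_of_dvd_mul_left h, fun h => Dvd.dvd.mul_left h _⟩
    constructor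
    · rintro ⟨⟨⟨h1, h2⟩, h3, h4⟩, E, hE⟩
      subst hE
      refine ⟨E, ⟨⟨?_, ?_⟩, (hcong E).1 h3, fun r hr h => h4 r hr ((hsq E r hr).2 h)⟩, rfl⟩
      · rcases Nat.eq_zero_or_pos E with h | h
        · subst h; simp at h1
        · exact h
      · rw [hfl, Nat.le_div_iff_mul_le hp2]
        linarith [Nat.mul_comm E (p ^ 2)]
    · rintro ⟨E, ⟨⟨h1, h2⟩, h3, h4⟩, rfl⟩
      rw [hfl, Nat.le_div_iff_mul_le hp2] at h2
      refine ⟨⟨⟨?_, by linarith [Nat.mul_comm E (p ^ 2)]⟩, (hcong E).2 h3,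
        fun r hr h => h4 r hr ((hsq E r hr).1 h)⟩, Dvd.intro _ rfl⟩
      exact Nat.mul_pos hp2 h1
  have hcard : (cns q a S Y).card = ((cns q a S Y).filter (fun D => p ^ 2 ∣ D)).card +
      ((cns q a S Y).filter (fun D => ¬ p ^ 2 ∣ D)).card :=
    (Finset.card_filter_add_card_filter_not _).symm
  rw [hsub, hdv, Finset.card_image_of_injective _ (fun x y h => Nat.eq_of_mul_eq_mul_left hp2 h)]
    at hcard
  have : ((cns q a S Y).card : ℝ) = (cns q a' S (Y / (p : ℝ) ^ 2)).card +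
      (cns q a (insert p S) Y).card := by exact_mod_cast hcard
  linarith

lemma cns_main (q : ℕ) (hq : 1 ≤ q) (S : Finset ℕ) :
    (∀ p ∈ S, p.Prime ∧ ¬ p ∣ q) → ∀ (a : ℕ) (Y : ℝ), 0 ≤ Y →
      |((cns q a S Y).card : ℝ) - Y / q * ∏ p ∈ S, (1 - 1 / (p : ℝ) ^ 2)| ≤ 2 * 2 ^ S.card := by
  classical
  induction S using Finset.induction_on with
  | empty =>
    intro _ a Y hY
    simpa using cns_base q a hq Y hY
  | insert p S hpS ih =>
    intro hS a Y hY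
    have hp := hS p (Finset.mem_insert_self _ _)
    have hS' : ∀ r ∈ S, r.Prime ∧ ¬ r ∣ q := fun r hr => hS r (Finset.mem_insert_of_mem hr)
    obtain ⟨a', ha'⟩ := cns_step q S (fun r hr => (hS' r hr).1) p hp.1 hpS hp.2 a Y
    have h1 := ih hS' a Y hY
    have hp0 : (0 : ℝ) < p := by exact_mod_cast hp.1.pos
    have h2 := ih hS' a' (Y / (p : ℝ) ^ 2) (by positivity)
    rw [ha', Finset.prod_insert hpS, Finset.card_insert_of_notMem hpS,
      pow_succ (2 : ℝ) S.card]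
    have e : ((cns q a S Y).card : ℝ) - (cns q a' S (Y / (p : ℝ) ^ 2)).card -
        Y / q * ((1 - 1 / (p : ℝ) ^ 2) * ∏ p ∈ S, (1 - 1 / (p : ℝ) ^ 2)) =
        (((cns q a S Y).card : ℝ) - Y / q * ∏ p ∈ S, (1 - 1 / (p : ℝ) ^ 2)) -
        ((cns q a' S (Y / (p : ℝ) ^ 2)).card -
          Y / (p : ℝ) ^ 2 / q * ∏ p ∈ S, (1 - 1 / (p : ℝ) ^ 2)) := by
      ring
    rw [e]
    refine (abs_sub _ _).trans ?_
    linarith

/-- the factor at `p` -/
noncomputable def gfac (N p : ℕ) : ℝ := if p ∣ N then 1 else 1 - 1 / (p : ℝ) ^ 2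

/-- the primes up to `z` not dividing `N` -/
def prs (N z : ℕ) : Finset ℕ := (Finset.range (z + 1)).filter (fun p => p.Prime ∧ ¬ p ∣ N)

lemma gfac_sub (N : ℕ) (p : ℕ) : |gfac N p - 1| ≤ 1 * ((p : ℝ) ^ 2)⁻¹ := by
  unfold gfac
  split_ifs
  · simp
  · rw [one_mul, one_div, sub_sub_cancel_left, abs_neg, abs_of_nonneg (by positivity)]

lemma gfac_sub' (N : ℕ) (p : ℕ) (hp : p.Prime) : |gfac N p - 1| ≤ 1 := by
  refine (gfac_sub N p).trans ?_
  rw [one_mul]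
  have : (1 : ℝ) ≤ (p : ℝ) ^ 2 := by
    have : (1 : ℝ) ≤ p := by exact_mod_cast hp.one_lt.le
    nlinarith
  exact inv_le_one_of_one_le₀ this

lemma prod_prs (N z : ℕ) : ∏' p : Nat.Primes, (if (p : ℕ) ≤ z then gfac N p else 1) =
    ∏ p ∈ prs N z, (1 - 1 / (p : ℝ) ^ 2) := by
  classical
  let s0 : Finset Nat.Primes := (Finset.range (z + 1)).subtype Nat.Prime
  have h0 : ∏' p : Nat.Primes, (if (p : ℕ) ≤ z then gfac N p else 1) =
      ∏ p ∈ s0, (if (p : ℕ) ≤ z then gfac N p else 1) := by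
    refine tprod_eq_prod (fun b hb => ?_)
    rw [if_neg]
    intro h
    exact hb (Finset.mem_subtype.mpr (Finset.mem_range.mpr (by omega)))
  refine h0.trans ?_
  · have h1 := Finset.prod_subtype_eq_prod_filter (s := Finset.range (z + 1)) (p := Nat.Prime)
      (fun n : ℕ => if n ≤ z then gfac N n else 1)
    have h2 : ∏ b ∈ s0, (if ((b : Nat.Primes) : ℕ) ≤ z then gfac N (b : ℕ) else 1) =
        ∏ x ∈ (Finset.range (z + 1)).filter Nat.Prime, (if x ≤ z then gfac N x else 1) := h1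
    rw [h2]
    have h3 : prs N z = ((Finset.range (z + 1)).filter Nat.Prime).filter (fun p => ¬ p ∣ N) := by
      unfold prs; rw [Finset.filter_filter]
    rw [h3, Finset.prod_filter (fun p => ¬ p ∣ N)]
    refine Finset.prod_congr rfl (fun p hp => ?_)
    have : p ≤ z := by
      have := Finset.mem_range.mp (Finset.mem_filter.mp hp).1
      omega
    rw [if_pos this]
    unfold gfac
    by_cases h : p ∣ N <;> simp [h]

lemma tprod_split (N z : ℕ) : ∏' p : Nat.Primes, gfac N p =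
    (∏ p ∈ prs N z, (1 - 1 / (p : ℝ) ^ 2)) *
      ∏' p : Nat.Primes, (if (p : ℕ) ≤ z then 1 else gfac N p) := by
  rw [← prod_prs]
  have m1 : Multipliable (fun p : Nat.Primes => if (p : ℕ) ≤ z then gfac N p else (1 : ℝ)) := by
    refine Pool.Agent.H22.CN.mult_of (C := 1) z (fun p hp => ?_) (fun p hp => ?_)
    · rw [if_pos hp]; exact gfac_sub' N p p.2
    · rw [if_neg (by omega)]
      simp
  have m2 : Multipliable (fun p : Nat.Primes => if (p : ℕ) ≤ z then (1 : ℝ) else gfac N p) := by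
    refine Pool.Agent.H22.CN.mult_of (C := 1) z (fun p hp => ?_) (fun p hp => ?_)
    · rw [if_pos hp]; simp
    · rw [if_neg (by omega)]; exact gfac_sub N p
  rw [← m1.tprod_mul m2]
  refine tprod_congr (fun p => ?_)
  split_ifs <;> simp

lemma tail_le (N z : ℕ) : |∏' p : Nat.Primes, (if (p : ℕ) ≤ z then 1 else gfac N p) - 1| ≤
    Real.exp (2 / ((z : ℝ) + 1)) - 1 := by
  have h := Pool.Agent.H22.CN.tail_bound (C := 1)
    (f := fun p : Nat.Primes => if (p : ℕ) ≤ z then (1 : ℝ) else gfac N p) zero_le_one z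
    (fun p hp => by rw [if_pos hp]) (fun p hp => by rw [if_neg (by omega)]; exact gfac_sub N p)
  simpa using h

lemma prod_le_one (N z : ℕ) : 0 ≤ ∏ p ∈ prs N z, (1 - 1 / (p : ℝ) ^ 2) ∧
    ∏ p ∈ prs N z, (1 - 1 / (p : ℝ) ^ 2) ≤ 1 := by
  have h : ∀ p ∈ prs N z, 0 ≤ (1 - 1 / (p : ℝ) ^ 2) ∧ (1 - 1 / (p : ℝ) ^ 2) ≤ 1 := by
    intro p hp
    have hp' : p.Prime := (Finset.mem_filter.mp hp).2.1
    have h1 : (1 : ℝ) ≤ (p : ℝ) ^ 2 := by
      have : (1 : ℝ) ≤ p := by exact_mod_cast hp'.one_lt.le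
      nlinarith
    have h2 : 1 / (p : ℝ) ^ 2 ≤ 1 := by rw [div_le_one (by positivity)]; exact h1
    have h3 : 0 ≤ 1 / (p : ℝ) ^ 2 := by positivity
    constructor <;> linarith
  exact ⟨Finset.prod_nonneg (fun p hp => (h p hp).1), Finset.prod_le_one (fun p hp => (h p hp).1)
    (fun p hp => (h p hp).2)⟩

open Classical in
lemma diff_le (N q a z : ℕ) (Y : ℝ) (hY : 0 ≤ Y) :
    |(((Finset.Icc 1 ⌊Y⌋₊).filter (fun D => D % q = a % q ∧
          ∀ p : ℕ, p.Prime → ¬ p ∣ N → ¬ p ^ 2 ∣ D)).card : ℝ) -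
      ((cns q a (prs N z) Y).card : ℝ)| ≤ Y * (2 / ((z : ℝ) + 1)) := by
  set T := (Finset.Icc 1 ⌊Y⌋₊).filter (fun D => D % q = a % q ∧
          ∀ p : ℕ, p.Prime → ¬ p ∣ N → ¬ p ^ 2 ∣ D) with hT
  set U := (Finset.Ioo z (⌊Y⌋₊ + 1)).biUnion
    (fun n => (Finset.Ioc 0 ⌊Y⌋₊).filter (fun D => n ^ 2 ∣ D)) with hU
  have h1 : T ⊆ cns q a (prs N z) Y := by
    intro D hD
    rw [hT, Finset.mem_filter] at hD
    unfold cns
    rw [Finset.mem_filter]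
    refine ⟨hD.1, hD.2.1, fun p hp => ?_⟩
    have := (Finset.mem_filter.mp hp).2
    exact hD.2.2 p this.1 this.2
  have h2 : cns q a (prs N z) Y ⊆ T ∪ U := by
    intro D hD
    unfold cns at hD
    rw [Finset.mem_filter] at hD
    obtain ⟨hD1, hD2, hD3⟩ := hD
    rw [Finset.mem_Icc] at hD1
    by_cases h : ∀ p : ℕ, p.Prime → ¬ p ∣ N → ¬ p ^ 2 ∣ D
    · exact Finset.mem_union_left _ (Finset.mem_filter.mpr ⟨Finset.mem_Icc.mpr hD1, hD2, h⟩)
    · push Not at h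
      obtain ⟨p, hp, hpN, hpD⟩ := h
      refine Finset.mem_union_right _ (Finset.mem_biUnion.mpr ⟨p, ?_, ?_⟩)
      · rw [Finset.mem_Ioo]
        constructor
        · by_contra hc
          exact hD3 p (Finset.mem_filter.mpr ⟨Finset.mem_range.mpr (by omega), hp, hpN⟩) hpD
        · have h3 : p ^ 2 ≤ D := Nat.le_of_dvd hD1.1 hpD
          have h4 : p ≤ p ^ 2 := Nat.le_self_pow (by norm_num) p
          omega
      · exact Finset.mem_filter.mpr ⟨Finset.mem_Ioc.mpr ⟨by omega, hD1.2⟩, hpD⟩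
  have h3 : (U.card : ℝ) ≤ Y * (2 / ((z : ℝ) + 1)) := by
    have h4 : (U.card : ℝ) ≤ ∑ n ∈ Finset.Ioo z (⌊Y⌋₊ + 1), Y * (((n : ℝ)) ^ 2)⁻¹ := by
      have h5 : U.card ≤ ∑ n ∈ Finset.Ioo z (⌊Y⌋₊ + 1),
          ((Finset.Ioc 0 ⌊Y⌋₊).filter (fun D => n ^ 2 ∣ D)).card := Finset.card_biUnion_le
      have h6 : (U.card : ℝ) ≤ ∑ n ∈ Finset.Ioo z (⌊Y⌋₊ + 1),
          (((Finset.Ioc 0 ⌊Y⌋₊).filter (fun D => n ^ 2 ∣ D)).card : ℝ) := by exact_mod_cast h5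
      refine h6.trans (Finset.sum_le_sum (fun n hn => ?_))
      rw [Nat.Ioc_filter_dvd_card_eq_div]
      have hn0 : 0 < n := by have := (Finset.mem_Ioo.mp hn).1; omega
      refine Nat.cast_div_le.trans ?_
      rw [div_eq_mul_inv]
      push_cast
      exact mul_le_mul_of_nonneg_right (Nat.floor_le hY) (by positivity)
    refine h4.trans ?_
    rw [← Finset.mul_sum]
    exact mul_le_mul_of_nonneg_left (sum_Ioo_inv_sq_le (α := ℝ) z (⌊Y⌋₊ + 1)) hY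
  have h4 : (T.card : ℝ) ≤ (cns q a (prs N z) Y).card := by exact_mod_cast Finset.card_le_card h1
  have h5 : ((cns q a (prs N z) Y).card : ℝ) ≤ T.card + U.card := by
    exact_mod_cast (Finset.card_le_card h2).trans (Finset.card_union_le _ _)
  rw [abs_le]
  constructor <;> linarith [Nat.cast_nonneg (α := ℝ) U.card]

theorem pf_FAP : T_FAP := by
  classical
  intro N q a ε hN hq hqN hε
  have ht : Tendsto (fun z : ℕ => 2 / ((z : ℝ) + 1) + (Real.exp (2 / ((z : ℝ) + 1)) - 1)) atTop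
      (𝓝 0) := by
    have h2 : Tendsto (fun R : ℕ => 2 / ((R : ℝ) + 1)) atTop (𝓝 0) := by
      have h3 := (tendsto_one_div_add_atTop_nhds_zero_nat (𝕜 := ℝ)).const_mul 2
      rw [mul_zero] at h3
      refine h3.congr fun R => ?_
      ring
    have h3 := ((Real.continuous_exp.tendsto 0).comp h2).sub_const 1
    have h4 := h2.add h3
    simpa using h4
  obtain ⟨z, hz⟩ := (ht.eventually (ge_mem_nhds (show (0 : ℝ) < ε / 2 by linarith))).exists
  set S := prs N z with hS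
  refine ⟨4 * 2 ^ S.card / ε + 1, fun Y hY => ?_⟩
  have hY0 : 0 ≤ Y := by
    have : 0 ≤ 4 * 2 ^ S.card / ε := by positivity
    linarith
  have hSq : ∀ p ∈ S, p.Prime ∧ ¬ p ∣ q := by
    intro p hp
    have h := (Finset.mem_filter.mp hp).2
    exact ⟨h.1, fun hd => h.2 (hqN p h.1 hd)⟩
  have b1 := diff_le N q a z Y hY0
  have b2 := cns_main q hq S hSq a Y hY0
  have b3 := tail_le N z
  have b4 := prod_le_one N z
  have e1 : (∏' p : Nat.Primes, if (p : ℕ) ∣ N then 1 else 1 - 1 / ((p : ℕ) : ℝ) ^ 2) =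
      (∏ p ∈ prs N z, (1 - 1 / (p : ℝ) ^ 2)) *
      ∏' p : Nat.Primes, (if (p : ℕ) ≤ z then 1 else gfac N p) := tprod_split N z
  rw [e1]
  set Pz := ∏ p ∈ prs N z, (1 - 1 / (p : ℝ) ^ 2) with hPz
  set t := ∏' p : Nat.Primes, (if (p : ℕ) ≤ z then 1 else gfac N p) with ht'
  have hq1 : (1 : ℝ) ≤ q := by exact_mod_cast hq
  have hYq : Y / q ≤ Y := div_le_self hY0 hq1
  have hYq0 : 0 ≤ Y / q := by positivity
  have b5 : |Y / q * Pz - Y / q * (Pz * t)| ≤ Y * (Real.exp (2 / ((z : ℝ) + 1)) - 1) := by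
    have : Y / q * Pz - Y / q * (Pz * t) = Y / q * Pz * (1 - t) := by ring
    rw [this, abs_mul, abs_of_nonneg (mul_nonneg hYq0 b4.1), abs_sub_comm]
    have h1 : Y / q * Pz ≤ Y := by nlinarith [b4.1, b4.2]
    exact mul_le_mul h1 b3 (abs_nonneg _) hY0
  have b6 : 2 * 2 ^ S.card ≤ ε / 2 * Y := by
    have h1 : 4 * 2 ^ S.card / ε ≤ Y := by linarith
    rw [div_le_iff₀ hε] at h1
    linarith
  have b7 : Y * (2 / ((z : ℝ) + 1)) + Y * (Real.exp (2 / ((z : ℝ) + 1)) - 1) ≤ ε / 2 * Y := by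
    rw [← mul_add, mul_comm]
    exact mul_le_mul_of_nonneg_right hz hY0
  have b8 := abs_add_three
    ((((Finset.Icc 1 ⌊Y⌋₊).filter (fun D => D % q = a % q ∧
          ∀ p : ℕ, p.Prime → ¬ p ∣ N → ¬ p ^ 2 ∣ D)).card : ℝ) -
      ((cns q a (prs N z) Y).card : ℝ))
    (((cns q a S Y).card : ℝ) - Y / q * Pz) (Y / q * Pz - Y / q * (Pz * t))
  have e2 : ((((Finset.Icc 1 ⌊Y⌋₊).filter (fun D => D % q = a % q ∧
          ∀ p : ℕ, p.Prime → ¬ p ∣ N → ¬ p ^ 2 ∣ D)).card : ℝ) -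
      ((cns q a (prs N z) Y).card : ℝ)) + (((cns q a S Y).card : ℝ) - Y / q * Pz) +
      (Y / q * Pz - Y / q * (Pz * t)) =
      (((Finset.Icc 1 ⌊Y⌋₊).filter (fun D => D % q = a % q ∧
          ∀ p : ℕ, p.Prime → ¬ p ∣ N → ¬ p ^ 2 ∣ D)).card : ℝ) - Y / q * (Pz * t) := by
    rw [← hS]; ring
  rw [e2] at b8
  refine b8.trans ?_
  linarith

end Pool.Agent.H30.CF
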