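import Pool.Agent.H65.CF.T7

set_option autoImplicit false

open MeasureTheory Set Filter NumberField
open scoped Real nonZeroDivisors

namespace Pool.Agent.H30.CF

open Pool.Agent.H31.CN Pool.Agent.H65.AD Pool.Agent.H65.CF

/-- the fibre of `(m,k) ↦ (m+1)(k+1)` over `n+1` -/
lemma fibre_eq (n : ℕ) :
    (fun x : ℕ × ℕ => (x.1 + 1) * (x.2 + 1) - 1) ⁻¹' {n} =
      (((n + 1).divisors.image (fun d => (d - 1, (n + 1) / d - 1)) : Finset (ℕ × ℕ)) :
        Set (ℕ × ℕ)) := by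
  ext ⟨m, k⟩
  simp only [Set.mem_preimage, Set.mem_singleton_iff, Finset.coe_image, Set.mem_image,
    Finset.mem_coe, Nat.mem_divisors, Prod.mk.injEq]
  constructor
  · intro h
    have h1 : (m + 1) * (k + 1) = n + 1 := by
      have : 0 < (m + 1) * (k + 1) := by positivity
      omega
    refine ⟨m + 1, ⟨⟨k + 1, h1.symm⟩, by omega⟩, by omega, ?_⟩
    rw [← h1, Nat.mul_div_cancel_left _ (Nat.succ_pos m)]
    omega
  · rintro ⟨d, ⟨hd, -⟩, h1, h2⟩
    obtain ⟨e, he⟩ := hd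
    have hd0 : 0 < d := by
      rcases Nat.eq_zero_or_pos d with h | h
      · subst h; simp at he
      · exact h
    have he0 : 0 < e := by
      rcases Nat.eq_zero_or_pos e with h | h
      · subst h; simp at he
      · exact h
    rw [he, Nat.mul_div_cancel_left _ hd0] at h2
    have hm : m + 1 = d := by omega
    have hk : k + 1 = e := by omega
    rw [hm, hk, ← he]
    omega

lemma fibre_sum (F : ℕ → ℕ → ℝ) (n : ℕ) :
    ∑' b : (fun x : ℕ × ℕ => (x.1 + 1) * (x.2 + 1) - 1) ⁻¹' {n},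
      F ((b : ℕ × ℕ).1 + 1) ((b : ℕ × ℕ).2 + 1) =
      ∑ d ∈ (n + 1).divisors, F d ((n + 1) / d) := by
  rw [fibre_eq n]
  rw [Finset.tsum_subtype' ((n + 1).divisors.image (fun d => (d - 1, (n + 1) / d - 1)))
    (fun b : ℕ × ℕ => F (b.1 + 1) (b.2 + 1))]
  rw [Finset.sum_image]
  · refine Finset.sum_congr rfl (fun d hd => ?_)
    have h1 : 0 < d := Nat.pos_of_mem_divisors hd
    have h2 : 0 < (n + 1) / d :=
      Nat.div_pos (Nat.le_of_dvd (Nat.succ_pos n) (Nat.dvd_of_mem_divisors hd)) h1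
    have h3 : d - 1 + 1 = d := by omega
    have h4 : (n + 1) / d - 1 + 1 = (n + 1) / d := by omega
    simp only [h3, h4]
  · intro a ha b hb hab
    have h1 : 0 < a := Nat.pos_of_mem_divisors ha
    have h2 : 0 < b := Nat.pos_of_mem_divisors hb
    simp only [Prod.mk.injEq] at hab
    omega

theorem pf_PDS : T_PDS := by
  intro F hF
  have h := hF.hasSum
  have h1 := h.tsum_fiberwise (fun x : ℕ × ℕ => (x.1 + 1) * (x.2 + 1) - 1)
  have h2 : (fun n : ℕ => ∑' b : (fun x : ℕ × ℕ => (x.1 + 1) * (x.2 + 1) - 1) ⁻¹' {n},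
      F ((b : ℕ × ℕ).1 + 1) ((b : ℕ × ℕ).2 + 1)) =
      (fun n : ℕ => ∑ d ∈ (n + 1).divisors, F d ((n + 1) / d)) := by
    funext n
    exact fibre_sum F n
  rw [h2] at h1
  exact ⟨h1.summable, h1.tsum_eq.symm⟩

end Pool.Agent.H30.CF
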