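import Pool.Agent.H65.CF.T7

set_option autoImplicit false

open MeasureTheory Set Filter NumberField
open scoped Real nonZeroDivisors

namespace Pool.Agent.H30.CF

open Pool.Agent.H31.CN Pool.Agent.H65.AD Pool.Agent.H65.CF

lemma geo_hasSum (a : ℝ) (ha : 0 < a) :
    HasSum (fun k : ℕ => Real.exp (-(a * ((k : ℝ) + 1)))) (1 / (Real.exp a - 1)) := by
  have hr0 : 0 ≤ Real.exp (-a) := (Real.exp_pos _).le
  have hr1 : Real.exp (-a) < 1 := by
    rw [Real.exp_lt_one_iff]; linarith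
  have h := (hasSum_geometric_of_lt_one hr0 hr1).mul_left (Real.exp (-a))
  have h1 : (fun k : ℕ => Real.exp (-a) * Real.exp (-a) ^ k) =
      (fun k : ℕ => Real.exp (-(a * ((k : ℝ) + 1)))) := by
    funext k
    rw [← Real.exp_nat_mul, ← Real.exp_add]
    congr 1; ring
  rw [h1] at h
  have h2 : Real.exp (-a) * (1 - Real.exp (-a))⁻¹ = 1 / (Real.exp a - 1) := by
    have h3 : Real.exp (-a) = 1 / Real.exp a := by rw [Real.exp_neg]; simp
    have h4 : 0 < Real.exp a := Real.exp_pos a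
    have h5 : 1 < Real.exp a := Real.one_lt_exp_iff.mpr ha
    have h6 : Real.exp a - 1 ≠ 0 := fun h => by linarith
    have h7 : 1 - 1 / Real.exp a = (Real.exp a - 1) / Real.exp a := by field_simp
    rw [h3, h7]
    field_simp
  rw [h2] at h
  exact h

lemma inv_exp_sub_one_le (a : ℝ) (ha : 0 < a) :
    1 / (Real.exp a - 1) ≤ 1 / a * Real.exp (-(a / 2)) := by
  have h1 : a / 2 ≤ Real.sinh (a / 2) := Real.self_le_sinh_iff.mpr (by linarith)
  rw [Real.sinh_eq] at h1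
  have h2 : Real.exp a = Real.exp (a / 2) * Real.exp (a / 2) := by
    rw [← Real.exp_add]; congr 1; ring
  have h3 : Real.exp (a / 2) * Real.exp (-(a / 2)) = 1 := by
    rw [← Real.exp_add]; simp
  have hp : 0 < Real.exp (a / 2) := Real.exp_pos _
  have h4 : a * Real.exp (a / 2) ≤ Real.exp a - 1 := by
    have := mul_le_mul_of_nonneg_right h1 hp.le
    nlinarith
  have h5 : 0 < a * Real.exp (a / 2) := by positivity
  have h6 : 1 / a * Real.exp (-(a / 2)) = 1 / (a * Real.exp (a / 2)) := by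
    rw [Real.exp_neg]; field_simp
  rw [h6]
  exact one_div_le_one_div_of_le h5 h4

lemma inv_exp_sub_one_le' (a : ℝ) (ha : 0 < a) : 1 / (Real.exp a - 1) ≤ 1 / a := by
  have h1 : a ≤ Real.exp a - 1 := by linarith [Real.add_one_le_exp a]
  exact one_div_le_one_div_of_le ha h1

/-- the majorant -/
noncomputable def maj (Z : ℝ) (m : ℕ) : ℝ :=
  (if m < ⌊Z⌋₊ then Z * (((m + 1 : ℕ) : ℝ))⁻¹ else 0) +
    Real.exp (-(1 / (2 * Z) * ((m : ℝ) + 1)))

lemma term_le_maj (Z : ℝ) (hZ : 1 ≤ Z) (m : ℕ) :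
    1 / (Real.exp (((m : ℝ) + 1) / Z) - 1) ≤ maj Z m := by
  have hZ0 : 0 < Z := by linarith
  have hm : (0 : ℝ) < (m : ℝ) + 1 := by positivity
  have ha : 0 < ((m : ℝ) + 1) / Z := by positivity
  unfold maj
  split_ifs with h
  · have h1 := inv_exp_sub_one_le' _ ha
    have h2 : 1 / (((m : ℝ) + 1) / Z) = Z * (((m + 1 : ℕ) : ℝ))⁻¹ := by
      push_cast; field_simp
    rw [h2] at h1
    linarith [Real.exp_pos (-(1 / (2 * Z) * ((m : ℝ) + 1)))]
  · have h1 := inv_exp_sub_one_le _ ha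
    have h2 : 1 / (((m : ℝ) + 1) / Z) ≤ 1 := by
      rw [div_le_one ha, le_div_iff₀ hZ0]
      have : ⌊Z⌋₊ ≤ m := by omega
      have h3 : Z < (⌊Z⌋₊ : ℝ) + 1 := Nat.lt_floor_add_one Z
      have h4 : ((⌊Z⌋₊ : ℕ) : ℝ) ≤ m := by exact_mod_cast this
      linarith
    have h3 : -(((m : ℝ) + 1) / Z / 2) = -(1 / (2 * Z) * ((m : ℝ) + 1)) := by
      field_simp
    rw [h3] at h1
    have h4 := mul_le_mul_of_nonneg_right h2 (Real.exp_pos (-(1 / (2 * Z) * ((m : ℝ) + 1)))).le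
    linarith

lemma maj_hasSum (Z : ℝ) (hZ : 1 ≤ Z) :
    HasSum (maj Z) (∑ m ∈ Finset.range ⌊Z⌋₊, Z * (((m + 1 : ℕ) : ℝ))⁻¹ +
      1 / (Real.exp (1 / (2 * Z)) - 1)) := by
  have hZ0 : 0 < Z := by linarith
  have h1 : HasSum (fun m : ℕ => if m < ⌊Z⌋₊ then Z * (((m + 1 : ℕ) : ℝ))⁻¹ else 0)
      (∑ m ∈ Finset.range ⌊Z⌋₊, Z * (((m + 1 : ℕ) : ℝ))⁻¹) := by
    have h2 : ∑ m ∈ Finset.range ⌊Z⌋₊, Z * (((m + 1 : ℕ) : ℝ))⁻¹ =
        ∑ m ∈ Finset.range ⌊Z⌋₊, (if m < ⌊Z⌋₊ then Z * (((m + 1 : ℕ) : ℝ))⁻¹ else 0) := by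
      refine Finset.sum_congr rfl (fun m hm => ?_)
      rw [if_pos (Finset.mem_range.mp hm)]
    rw [h2]
    refine hasSum_sum_of_ne_finset_zero (fun m hm => ?_)
    rw [if_neg]
    intro h
    exact hm (Finset.mem_range.mpr h)
  have h3 := geo_hasSum (1 / (2 * Z)) (by positivity)
  exact h1.add h3

theorem pf_TDS (hPDS : T_PDS) : T_TDS := by
  refine ⟨3, by norm_num, fun Z hZ => ?_⟩
  have hZ0 : 0 < Z := by linarith
  set F : ℕ → ℕ → ℝ := fun m k => Real.exp (-((m : ℝ) * k / Z)) with hF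
  have hrow : ∀ m : ℕ, HasSum (fun k : ℕ => F (m + 1) (k + 1))
      (1 / (Real.exp (((m : ℝ) + 1) / Z) - 1)) := by
    intro m
    have h := geo_hasSum (((m : ℝ) + 1) / Z) (by positivity)
    have h1 : (fun k : ℕ => F (m + 1) (k + 1)) =
        (fun k : ℕ => Real.exp (-(((m : ℝ) + 1) / Z * ((k : ℝ) + 1)))) := by
      funext k
      simp only [hF]
      congr 1
      push_cast
      ring
    rw [h1]; exact h
  have hnn : ∀ x : ℕ × ℕ, 0 ≤ F (x.1 + 1) (x.2 + 1) := fun x => (Real.exp_pos _).le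
  have hmaj := maj_hasSum Z hZ
  have hsm : Summable (fun m : ℕ => 1 / (Real.exp (((m : ℝ) + 1) / Z) - 1)) := by
    refine Summable.of_nonneg_of_le (fun m => ?_) (fun m => term_le_maj Z hZ m) hmaj.summable
    have : 0 < ((m : ℝ) + 1) / Z := by positivity
    have h1 : 1 < Real.exp (((m : ℝ) + 1) / Z) := Real.one_lt_exp_iff.mpr this
    have : 0 < Real.exp (((m : ℝ) + 1) / Z) - 1 := by linarith
    positivity
  have hsum : Summable (fun x : ℕ × ℕ => F (x.1 + 1) (x.2 + 1)) := by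
    rw [summable_prod_of_nonneg hnn]
    refine ⟨fun m => (hrow m).summable, ?_⟩
    have : (fun m : ℕ => ∑' k : ℕ, F (m + 1) (k + 1)) =
        fun m : ℕ => 1 / (Real.exp (((m : ℝ) + 1) / Z) - 1) := by
      funext m; exact (hrow m).tsum_eq
    simpa only [this] using hsm
  obtain ⟨hs, he⟩ := hPDS F hsum
  have hinner : (fun n : ℕ => ∑ d ∈ (n + 1).divisors, F d ((n + 1) / d)) =
      (fun n : ℕ => ((n + 1).divisors.card : ℝ) * Real.exp (-(((n : ℝ) + 1) / Z))) := by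
    funext n
    rw [← nsmul_eq_mul, ← Finset.sum_const]
    refine Finset.sum_congr rfl (fun d hd => ?_)
    simp only [hF]
    have h1 : d * ((n + 1) / d) = n + 1 := Nat.mul_div_cancel' (Nat.dvd_of_mem_divisors hd)
    have h2 : (d : ℝ) * (((n + 1) / d : ℕ) : ℝ) = (n : ℝ) + 1 := by
      rw [← Nat.cast_mul, h1]; push_cast; ring
    rw [h2]
  have hs' := hs
  rw [hinner] at hs'
  refine ⟨hs', ?_⟩
  have e1 : ∑' n : ℕ, ((n + 1).divisors.card : ℝ) * Real.exp (-(((n : ℝ) + 1) / Z)) =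
      ∑' x : ℕ × ℕ, F (x.1 + 1) (x.2 + 1) := by
    rw [he, hinner]
  rw [e1, hsum.tsum_prod' (fun m => (hrow m).summable)]
  have e2 : (fun m : ℕ => ∑' k : ℕ, F (m + 1) (k + 1)) =
      fun m : ℕ => 1 / (Real.exp (((m : ℝ) + 1) / Z) - 1) := by
    funext m; exact (hrow m).tsum_eq
  have e3 : ∑' m : ℕ, ∑' k : ℕ, F (m + 1) (k + 1) =
      ∑' m : ℕ, 1 / (Real.exp (((m : ℝ) + 1) / Z) - 1) := by rw [e2]
  have e4 : ∑' m : ℕ, 1 / (Real.exp (((m : ℝ) + 1) / Z) - 1) ≤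
      ∑ m ∈ Finset.range ⌊Z⌋₊, Z * (((m + 1 : ℕ) : ℝ))⁻¹ +
      1 / (Real.exp (1 / (2 * Z)) - 1) := by
    rw [← hmaj.tsum_eq]
    exact hsm.tsum_le_tsum (fun m => term_le_maj Z hZ m) hmaj.summable
  have e5 : ∑ m ∈ Finset.range ⌊Z⌋₊, Z * (((m + 1 : ℕ) : ℝ))⁻¹ ≤ Z * (1 + Real.log Z) := by
    rw [← Finset.mul_sum]
    have h1 := harmonic_floor_le_one_add_log Z hZ
    have h2 : ∑ m ∈ Finset.range ⌊Z⌋₊, (((m + 1 : ℕ) : ℝ))⁻¹ =
        ((harmonic ⌊Z⌋₊ : ℚ) : ℝ) := by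
      simp only [harmonic]
      push_cast
      rfl
    rw [h2]
    exact mul_le_mul_of_nonneg_left h1 hZ0.le
  have e6 : 1 / (Real.exp (1 / (2 * Z)) - 1) ≤ 2 * Z := by
    have := inv_exp_sub_one_le' (1 / (2 * Z)) (by positivity)
    simpa using this
  have e7 : 0 ≤ Real.log Z := Real.log_nonneg hZ
  have e8 : 2 * Z ≤ 2 * Z * (1 + Real.log Z) := by nlinarith
  rw [e3]
  nlinarith

end Pool.Agent.H30.CF
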